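import Pool.Agent.Helper20.Mono.Goals

/-! Packet F3: the limit of `W` at `(1,…,1)`. -/

namespace Mono

open Finset

variable {n : ℕ}

/-- The support of the vector `(1,…,1)` in the cone `F`. -/
noncomputable def sg (F : Finset (Fin n → ℤ)) : Finset (Fin n → ℤ) :=
  open Classical in F.filter (fun u => crd F (fun _ => (1 : ℝ)) u ≠ 0)

theorem mem_sg {F : Finset (Fin n → ℤ)} {u : Fin n → ℤ} :
    u ∈ sg F ↔ crd F (fun _ => (1 : ℝ)) u ≠ 0 := by
  classical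
  unfold sg
  rw [mem_filter]
  constructor
  · exact fun h => h.2
  · intro h
    refine ⟨?_, h⟩
    by_contra hu
    exact h (crd_of_notMem F _ hu)

theorem sg_subset (F : Finset (Fin n → ℤ)) : sg F ⊆ F := by
  classical
  exact Finset.filter_subset _ _

theorem sum_sg (Φ : Fan n) {F : Finset (Fin n → ℤ)} (hF : F ∈ Φ.mx) :
    (fun _ => (1 : ℝ)) = ∑ t ∈ sg F, crd F (fun _ => (1 : ℝ)) t • toR t := by
  classical
  conv_lhs => rw [← sum_crd (Φ.mx_indep F hF) (Φ.mx_card F hF) (fun _ => (1 : ℝ))]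
  symm
  refine Finset.sum_subset (sg_subset F) fun t _ ht => ?_
  have : crd F (fun _ => (1 : ℝ)) t = 0 := by
    by_contra h
    exact ht (mem_sg.2 h)
  rw [this, zero_smul]

theorem isClass_sg (Φ : Fan n) {F : Finset (Fin n → ℤ)} (hF : F ∈ Φ.mx) :
    Φ.IsClass (sg F) (crd F (fun _ => (1 : ℝ))) :=
  ⟨⟨F, hF, sg_subset F⟩, fun _ ht => mem_sg.1 ht, sum_sg Φ hF⟩

theorem crd_eq_of_sg_subset (Φ : Fan n) {F F' : Finset (Fin n → ℤ)} (hF : F ∈ Φ.mx)
    (hF' : F' ∈ Φ.mx) (hs : sg F ⊆ F') :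
    crd F' (fun _ => (1 : ℝ)) = crd F (fun _ => (1 : ℝ)) := by
  classical
  refine crd_unique (Φ.mx_indep F' hF') ⟨fun u hu => ?_, ?_⟩
  · by_contra h
    exact hu (hs (mem_sg.2 h))
  · conv_lhs => rw [sum_sg Φ hF]
    refine Finset.sum_subset hs fun t _ ht => ?_
    have : crd F (fun _ => (1 : ℝ)) t = 0 := by
      by_contra h
      exact ht (mem_sg.2 h)
    rw [this, zero_smul]

theorem sg_eq_of_subset (Φ : Fan n) {F F' : Finset (Fin n → ℤ)} (hF : F ∈ Φ.mx)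
    (hF' : F' ∈ Φ.mx) (hs : sg F ⊆ F') : sg F' = sg F := by
  ext u
  rw [mem_sg, mem_sg, crd_eq_of_sg_subset Φ hF hF' hs]

open Classical in
/-- The coefficients of a class. -/
noncomputable def ccf (Φ : Fan n) (σ : Finset (Fin n → ℤ)) : (Fin n → ℤ) → ℝ :=
  if h : ∃ F, F ∈ Φ.mx ∧ sg F = σ then crd (Classical.choose h) (fun _ => (1 : ℝ)) else 0

theorem ccf_sg (Φ : Fan n) {F : Finset (Fin n → ℤ)} (hF : F ∈ Φ.mx) :
    ccf Φ (sg F) = crd F (fun _ => (1 : ℝ)) := by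
  classical
  have h : ∃ F', F' ∈ Φ.mx ∧ sg F' = sg F := ⟨F, hF, rfl⟩
  unfold ccf
  rw [dif_pos h]
  obtain ⟨h1, h2⟩ := Classical.choose_spec h
  exact (crd_eq_of_sg_subset Φ h1 hF (by rw [h2]; exact sg_subset F)).symm

theorem psi_eq (Φ : Fan n) (Z : Finset (Fin n → ℤ)) {F : Finset (Fin n → ℤ)} (hF : F ∈ Φ.mx) :
    psi Z F (fun _ => (1 : ℝ)) = ∑ t ∈ sg F \ Z, ccf Φ (sg F) t := by
  classical
  rw [ccf_sg Φ hF]
  unfold psi
  symm
  refine Finset.sum_subset (Finset.sdiff_subset_sdiff (sg_subset F) (Finset.Subset.refl _))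
    fun t ht ht' => ?_
  by_contra h
  exact ht' (mem_sdiff.2 ⟨mem_sg.2 h, (mem_sdiff.1 ht).2⟩)

/-- `Esum` as a linear map. -/
noncomputable def EsumL (Φ : Fan n) (σ : Finset (Fin n → ℤ)) (w : Fin n → ℝ) :
    MvPolynomial (Fin n → ℤ) ℝ →ₗ[ℝ] ℝ where
  toFun := Φ.Esum σ w
  map_add' := fun x y => by
    unfold Fan.Esum
    rw [← Finset.sum_add_distrib]
    refine Finset.sum_congr rfl fun F _ => ?_
    rw [map_add, add_div]
  map_smul' := fun r x => by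
    unfold Fan.Esum
    rw [RingHom.id_apply, smul_eq_mul, Finset.mul_sum]
    refine Finset.sum_congr rfl fun F _ => ?_
    rw [MvPolynomial.smul_eval, mul_div_assoc]

theorem EsumL_apply (Φ : Fan n) (σ : Finset (Fin n → ℤ)) (w : Fin n → ℝ)
    (y : MvPolynomial (Fin n → ℤ) ℝ) : EsumL Φ σ w y = Φ.Esum σ w y := rfl

/-- The polynomial of the class `σ`. -/
noncomputable def qcl (Φ : Fan n) (Z σ : Finset (Fin n → ℤ)) (η : Fin n → ℝ)
    (c : (Fin n → ℤ) → ℝ) : Polynomial ℝ :=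
  ∑ k ∈ range (n + 1), Polynomial.C ((-1) ^ k * Φ.Esum σ η
    (MvPolynomial.homogeneousComponent (n - σ.card)
      ((∑ u ∈ Φ.vert \ Z, MvPolynomial.X u) ^ k * Φ.Y0 Z σ c))) * Polynomial.X ^ (k + 1)

theorem qcl_eval (Φ : Fan n) (Z σ : Finset (Fin n → ℤ)) (η : Fin n → ℝ)
    (c : (Fin n → ℤ) → ℝ) (s : ℝ) :
    (qcl Φ Z σ η c).eval (1 / (s + ∑ t ∈ σ \ Z, c t)) =
      Φ.Esum σ η (MvPolynomial.homogeneousComponent (n - σ.card) (Φ.Yhat Z σ c s)) := by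
  have h1 : Φ.Yhat Z σ c s = ∑ k ∈ range (n + 1),
      ((-1) ^ k * (s + ∑ t ∈ σ \ Z, c t)⁻¹ ^ (k + 1)) •
        ((∑ u ∈ Φ.vert \ Z, MvPolynomial.X u) ^ k * Φ.Y0 Z σ c) := by
    unfold Fan.Yhat tgeo
    rw [Finset.sum_mul]
    refine Finset.sum_congr rfl fun k _ => ?_
    rw [MvPolynomial.smul_eq_C_mul, mul_assoc]
  rw [h1, map_sum, ← EsumL_apply, map_sum]
  unfold qcl
  rw [Polynomial.eval_finsetSum]
  refine Finset.sum_congr rfl fun k _ => ?_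
  rw [map_smul, map_smul, smul_eq_mul, EsumL_apply, Polynomial.eval_mul, Polynomial.eval_C,
    Polynomial.eval_pow, Polynomial.eval_X, one_div]
  ring

/-- F3. -/
theorem limitW (h1 : ClassLimit) (h2 : KillZero) : LimitW := by
  classical
  intro n Φ Z η hη
  let A : Finset (Fin n → ℤ) → ℝ := fun σ => ∑ t ∈ σ \ Z, ccf Φ σ t
  let Sg : Finset (Finset (Fin n → ℤ)) := Φ.mx.image sg
  have hcls : ∀ σ ∈ Sg, Φ.IsClass σ (ccf Φ σ) := by
    intro σ hσ
    obtain ⟨F, hF, rfl⟩ := mem_image.1 hσ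
    rw [ccf_sg Φ hF]
    exact isClass_sg Φ hF
  refine ⟨fun a => ∑ σ ∈ Sg.filter (fun σ => A σ = a), qcl Φ Z σ η (ccf Φ σ), ?_, ?_⟩
  · intro a ha
    refine Finset.sum_eq_zero fun σ hσ => ?_
    obtain ⟨hσ, hA⟩ := mem_filter.1 hσ
    have hk : Φ.Kill Z σ := ha σ (ccf Φ σ) (hcls σ hσ) hA
    refine Polynomial.funext fun L => ?_
    have h3 := qcl_eval Φ Z σ η (ccf Φ σ) (1 / L - A σ)
    have h4 : (1 : ℝ) / (1 / L - A σ + ∑ t ∈ σ \ Z, ccf Φ σ t) = L := by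
      have : 1 / L - A σ + ∑ t ∈ σ \ Z, ccf Φ σ t = 1 / L := by
        change 1 / L - A σ + A σ = 1 / L
        ring
      rw [this, one_div_one_div]
    rw [h4] at h3
    rw [h3, Polynomial.eval_zero]
    exact h2 n Φ Z σ (ccf Φ σ) (hcls σ hσ) hk η hη _
  · intro s hs
    have hmaps : ∀ F ∈ Φ.mx, sg F ∈ Sg := fun F hF => mem_image_of_mem _ hF
    have hW : ∀ w : Fin n → ℝ, Φ.W Z s w =
        ∑ σ ∈ Sg, ∑ F ∈ Φ.mx.filter (fun F => σ ⊆ F), Wterm Z F s w := by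
      intro w
      unfold Fan.W
      rw [← Finset.sum_fiberwise_of_maps_to hmaps]
      refine Finset.sum_congr rfl fun σ hσ => ?_
      refine Finset.sum_congr ?_ fun _ _ => rfl
      ext F
      simp only [mem_filter]
      obtain ⟨F₀, hF₀, rfl⟩ := mem_image.1 hσ
      constructor
      · rintro ⟨h, h'⟩
        exact ⟨h, by rw [← h']; exact sg_subset F⟩
      · rintro ⟨h, h'⟩
        exact ⟨h, sg_eq_of_subset Φ hF₀ h h'⟩
    have hlim : (∑ a ∈ Φ.mx.image (fun F => psi Z F (fun _ => (1 : ℝ))),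
        (∑ σ ∈ Sg.filter (fun σ => A σ = a), qcl Φ Z σ η (ccf Φ σ)).eval (1 / (s + a))) =
        ∑ σ ∈ Sg, Φ.Esum σ η (MvPolynomial.homogeneousComponent (n - σ.card)
          (Φ.Yhat Z σ (ccf Φ σ) s)) := by
      have hmapsA : ∀ σ ∈ Sg, A σ ∈ Φ.mx.image (fun F => psi Z F (fun _ => (1 : ℝ))) := by
        intro σ hσ
        obtain ⟨F, hF, rfl⟩ := mem_image.1 hσ
        rw [mem_image]
        exact ⟨F, hF, psi_eq Φ Z hF⟩
      rw [← Finset.sum_fiberwise_of_maps_to hmapsA]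
      refine Finset.sum_congr rfl fun a _ => ?_
      rw [Polynomial.eval_finsetSum]
      refine Finset.sum_congr rfl fun σ hσ => ?_
      rw [← qcl_eval, ← (mem_filter.1 hσ).2]
    simp only [hW]
    rw [hlim]
    refine tendsto_finsetSum _ fun σ hσ => ?_
    refine h1 n Φ Z σ (ccf Φ σ) (hcls σ hσ) η hη s ?_
    obtain ⟨F, hF, rfl⟩ := mem_image.1 hσ
    rw [← psi_eq Φ Z hF]
    exact hs F hF

end Mono
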