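import Pool.Agent.Helper20.Mono.Goals

/-! Packet B1: the formula for `E^τ_w(1)`. -/

namespace Mono

open Finset

variable {n : ℕ}

theorem cs_mono {σ τ : Finset (Fin n → ℤ)} (h : σ ⊆ τ) : cs σ ⊆ cs τ := by
  intro i hi
  simp only [cs, mem_filter, mem_univ, true_and] at hi ⊢
  obtain ⟨u, hu, hi⟩ := hi
  exact ⟨u, h hu, hi⟩

theorem mem_cs {τ : Finset (Fin n → ℤ)} {i : Fin n} : i ∈ cs τ ↔ ∃ u ∈ τ, u i ≠ 0 := by
  simp [cs]

theorem notMem_cs {τ : Finset (Fin n → ℤ)} {i : Fin n} : i ∉ cs τ ↔ ∀ u ∈ τ, u i = 0 := by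
  simp [cs]

/-- An independent set has at most as many elements as its coordinate support. -/
theorem Indep.card_le_cs {τ : Finset (Fin n → ℤ)} (h : Indep τ) : τ.card ≤ (cs τ).card := by
  classical
  have h1 : LinearIndependent ℝ (fun u : τ => (fun i : cs τ => toR (u : Fin n → ℤ) i.1)) := by
    rw [Fintype.linearIndependent_iff]
    intro g hg u
    have h2 := (Fintype.linearIndependent_iff.1 h) g (by
      funext i
      by_cases hi : i ∈ cs τ
      · have := congrFun hg ⟨i, hi⟩
        simpa [Finset.sum_apply] using this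
      · have h3 : ∀ v : τ, (v : Fin n → ℤ) i = 0 := fun v => notMem_cs.1 hi v.1 v.2
        simp [Finset.sum_apply, h3])
    exact h2 u
  have h2 := h1.fintype_card_le_finrank
  simpa using h2

/-- The summand of `Esum τ w 1`. -/
theorem Esum_one (Φ : Fan n) (τ : Finset (Fin n → ℤ)) (w : Fin n → ℝ) :
    Φ.Esum τ w 1 = ∑ F ∈ Φ.mx.filter (fun F => τ ⊆ F),
      1 / ((idx (F : Set (Fin n → ℤ)) : ℝ) * ∏ u ∈ F \ τ, crd F w u) := by
  simp [Fan.Esum]

theorem Esum_not_face (Φ : Fan n) {τ : Finset (Fin n → ℤ)} (h : ¬ Φ.IsFace τ)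
    (w : Fin n → ℝ) (y : MvPolynomial (Fin n → ℤ) ℝ) : Φ.Esum τ w y = 0 := by
  unfold Fan.Esum
  have : Φ.mx.filter (fun F => τ ⊆ F) = ∅ := by
    rw [Finset.filter_eq_empty_iff]
    intro F hF hs
    exact h ⟨F, hF, hs⟩
  rw [this, Finset.sum_empty]

/-- The key recursion. -/
theorem Esum_rec (Φ : Fan n) (τ : Finset (Fin n → ℤ)) (w : Fin n → ℝ) (hw : Φ.Generic w)
    (x : Fin n → ℝ) (hx : ∀ v ∈ τ, x ⬝ᵥ toR v = 0) :
    (x ⬝ᵥ w) * Φ.Esum τ w 1 =
      ∑ u ∈ Φ.vert \ τ, (x ⬝ᵥ toR u) * Φ.Esum (insert u τ) w 1 := by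
  classical
  simp only [Esum_one]
  rw [Finset.mul_sum]
  have h1 : ∀ F ∈ Φ.mx.filter (fun F => τ ⊆ F),
      (x ⬝ᵥ w) * (1 / ((idx (F : Set (Fin n → ℤ)) : ℝ) * ∏ u ∈ F \ τ, crd F w u)) =
      ∑ u ∈ Φ.vert \ τ, if u ∈ F then (x ⬝ᵥ toR u) *
        (1 / ((idx (F : Set (Fin n → ℤ)) : ℝ) * ∏ v ∈ F \ insert u τ, crd F w v)) else 0 := by
    intro F hF
    rw [mem_filter] at hF
    obtain ⟨hF, hτ⟩ := hF
    rw [dot_eq_sum_crd (Φ.mx_indep F hF) (Φ.mx_card F hF) x w]
    rw [← Finset.sum_filter]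
    have h2 : (Φ.vert \ τ).filter (fun u => u ∈ F) = F \ τ := by
      ext u
      simp only [mem_filter, mem_sdiff]
      constructor
      · rintro ⟨⟨_, h⟩, h'⟩; exact ⟨h', h⟩
      · rintro ⟨h', h⟩; exact ⟨⟨Φ.mx_sub F hF h', h⟩, h'⟩
    rw [h2, ← Finset.sum_sdiff hτ]
    have h3 : ∑ u ∈ τ, crd F w u * (x ⬝ᵥ toR u) = 0 :=
      Finset.sum_eq_zero fun u hu => by rw [hx u hu, mul_zero]
    rw [h3, add_zero, Finset.sum_mul]
    refine Finset.sum_congr rfl fun u hu => ?_
    have h4 : F \ τ = insert u (F \ insert u τ) := by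
      ext v
      simp only [mem_sdiff, mem_insert] at hu ⊢
      constructor
      · rintro ⟨h, h'⟩
        by_cases hvu : v = u
        · exact Or.inl hvu
        · exact Or.inr ⟨h, by tauto⟩
      · rintro (h | ⟨h, h'⟩)
        · rw [h]; exact hu
        · exact ⟨h, by tauto⟩
    have h5 : u ∉ F \ insert u τ := by simp
    rw [h4, Finset.prod_insert h5]
    have h6 : crd F w u ≠ 0 := hw.1 F hF u (mem_sdiff.1 hu).1
    field_simp
  rw [Finset.sum_congr rfl h1, Finset.sum_comm]
  refine Finset.sum_congr rfl fun u hu => ?_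
  rw [Finset.mul_sum, ← Finset.sum_filter, Finset.filter_filter]
  refine Finset.sum_congr ?_ fun _ _ => rfl
  ext F
  simp only [mem_filter, Finset.insert_subset_iff]
  tauto

/-- A functional which kills `τ` and not `w`. -/
theorem exists_functional (Φ : Fan n) (τ : Finset (Fin n → ℤ)) (hτ : Φ.IsFace τ)
    (hc : τ.card < n) (w : Fin n → ℝ) (hw : Φ.Generic w) :
    ∃ x : Fin n → ℝ, (∀ v ∈ τ, x ⬝ᵥ toR v = 0) ∧ x ⬝ᵥ w ≠ 0 := by
  classical
  obtain ⟨F, hF, hs⟩ := hτ
  have h1 : ∃ u ∈ F, u ∉ τ := by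
    by_contra h
    push Not at h
    have := Finset.card_le_card (fun u hu => h u hu : F ⊆ τ)
    rw [Φ.mx_card F hF] at this
    omega
  obtain ⟨u, hu, hut⟩ := h1
  have hi := Φ.mx_indep F hF
  have hcd := Φ.mx_card F hF
  let φ : (Fin n → ℝ) →ₗ[ℝ] ℝ :=
    { toFun := fun y => crd F y u
      map_add' := fun y z => crd_add hi hcd y z u
      map_smul' := fun a y => by simp [crd_smul hi hcd a y u] }
  have h2 : ∀ y, (fun i => φ (Pi.single i 1)) ⬝ᵥ y = crd F y u := by
    intro y
    have : φ y = ∑ i, y i * φ (Pi.single i 1) := by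
      conv_lhs => rw [pi_eq_sum_univ' y]
      rw [map_sum]
      refine Finset.sum_congr rfl fun i _ => ?_
      rw [map_smul, smul_eq_mul]
    change _ = φ y
    rw [this, dotProduct]
    exact Finset.sum_congr rfl fun i _ => mul_comm _ _
  refine ⟨fun i => φ (Pi.single i 1), fun v hv => ?_, ?_⟩
  · rw [h2, crd_toR hi (hs hv)]
    have : u ≠ v := fun h => hut (h ▸ hv)
    simp [this]
  · rw [h2]
    exact hw.1 F hF u hu

theorem insert_mem_mxT (Φ : Fan n) {τ : Finset (Fin n → ℤ)} (h : Φ.IsFace τ)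
    (hc : τ.card = (cs τ).card) : τ ∈ Φ.mxT (cs τ) := by
  simp only [Fan.mxT, mem_filter]
  refine ⟨Φ.mem_faces.2 h, hc, fun u hu i hi => notMem_cs.1 hi u hu⟩

theorem mem_mxT_h42 (Φ : Fan n) {T : Finset (Fin n)} {τ : Finset (Fin n → ℤ)} :
    τ ∈ Φ.mxT T ↔ Φ.IsFace τ ∧ τ.card = T.card ∧ ∀ u ∈ τ, ∀ i, i ∉ T → u i = 0 := by
  simp only [Fan.mxT, mem_filter, Φ.mem_faces]

theorem cs_of_mem_mxT (Φ : Fan n) {T : Finset (Fin n)} {τ : Finset (Fin n → ℤ)}
    (h : τ ∈ Φ.mxT T) : cs τ = T := by
  rw [mem_mxT_h42] at h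
  obtain ⟨h1, h2, h3⟩ := h
  have h4 : cs τ ⊆ T := by
    intro i hi
    obtain ⟨u, hu, hui⟩ := mem_cs.1 hi
    by_contra hiT
    exact hui (h3 u hu i hiT)
  refine Finset.eq_of_subset_of_card_le h4 ?_
  rw [← h2]
  exact Indep.card_le_cs (Fan.IsFace.indep Φ h1)

theorem kFormula_aux (hS : SpanT) (hW : WallT) (hB : BdryT) (hp : IdxPos) (hI : IdxWall)
    (hI' : IdxBdry) (Φ : Fan n) (w : Fin n → ℝ) (hw : Φ.Generic w) :
    ∀ (d : ℕ) (τ : Finset (Fin n → ℤ)), Φ.IsFace τ → τ.card + d = n →
    Φ.Esum τ w 1 = if (cs τ).card = τ.card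
      then 1 / ((idx (τ : Set (Fin n → ℤ)) : ℝ) * ∏ i ∈ (cs τ)ᶜ, w i) else 0 := by
  classical
  intro d
  induction d with
  | zero =>
    intro τ hτ hc
    rw [add_zero] at hc
    have h1 : τ.card ≤ (cs τ).card := Indep.card_le_cs (Fan.IsFace.indep Φ hτ)
    have h2 : (cs τ).card ≤ n := by simpa using Finset.card_le_univ (cs τ)
    have h3 : (cs τ).card = τ.card := by omega
    have h4 : cs τ = univ := Finset.eq_univ_of_card _ (by simp; omega)
    rw [if_pos h3, h4, Esum_one]
    obtain ⟨F, hF, hs⟩ := hτ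
    have h5 : ∀ F' ∈ Φ.mx, τ ⊆ F' → F' = τ := by
      intro F' hF' hs'
      exact (Finset.eq_of_subset_of_card_le hs' (by rw [Φ.mx_card F' hF', hc])).symm
    have h6 : Φ.mx.filter (fun F => τ ⊆ F) = {τ} := by
      ext F'
      simp only [mem_filter, mem_singleton]
      constructor
      · rintro ⟨h, h'⟩; exact h5 F' h h'
      · rintro rfl
        exact ⟨by rw [← h5 F hF hs]; exact hF, Finset.Subset.refl _⟩
    rw [h6]
    simp
  | succ d ih =>
    intro τ hτ hc
    have hlt : τ.card < n := by omega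
    obtain ⟨x, hx, hxw⟩ := exists_functional Φ τ hτ hlt w hw
    have hrec := Esum_rec Φ τ w hw x hx
    have hcs : τ.card ≤ (cs τ).card := Indep.card_le_cs (Fan.IsFace.indep Φ hτ)
    -- the terms
    have hterm : ∀ u ∈ Φ.vert \ τ, Φ.IsFace (insert u τ) →
        Φ.Esum (insert u τ) w 1 = if (cs (insert u τ)).card = τ.card + 1
          then 1 / ((idx ((insert u τ : Finset (Fin n → ℤ)) : Set (Fin n → ℤ)) : ℝ) *
            ∏ i ∈ (cs (insert u τ))ᶜ, w i) else 0 := by
      intro u hu hf
      have hut : u ∉ τ := (mem_sdiff.1 hu).2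
      have hci : (insert u τ).card = τ.card + 1 := Finset.card_insert_of_notMem hut
      rw [ih (insert u τ) hf (by rw [hci]; omega), hci]
    have hzero : ∀ u ∈ Φ.vert \ τ, (¬ Φ.IsFace (insert u τ) ∨
        (cs (insert u τ)).card ≠ τ.card + 1) → Φ.Esum (insert u τ) w 1 = 0 := by
      intro u hu h
      by_cases hf : Φ.IsFace (insert u τ)
      · rw [hterm u hu hf, if_neg]
        rcases h with h | h
        · exact absurd hf h
        · exact h
      · exact Esum_not_face Φ hf w 1
    rcases Nat.lt_or_ge (τ.card + 1) (cs τ).card with hA | hA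
    · -- Case A
      have h1 : (x ⬝ᵥ w) * Φ.Esum τ w 1 = 0 := by
        rw [hrec]
        refine Finset.sum_eq_zero fun u hu => ?_
        rw [hzero u hu, mul_zero]
        right
        have := Finset.card_le_card (cs_mono (Finset.subset_insert u τ))
        omega
      rw [if_neg (by omega)]
      rcases mul_eq_zero.1 h1 with h | h
      · exact absurd h hxw
      · exact h
    rcases Nat.eq_or_lt_of_le hcs with hC | hBc
    · -- Case C
      rw [if_pos hC.symm]
      have hmx : τ ∈ Φ.mxT (cs τ) := insert_mem_mxT Φ hτ hC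
      -- `x` vanishes on `cs τ`
      have hx0 : ∀ j ∈ cs τ, x j = 0 := by
        intro j hj
        have h1 := hS n Φ (cs τ) τ hmx (Pi.single j 1) (by
          intro i hi
          have : i ≠ j := fun h => hi (h ▸ hj)
          simp [this])
        have h2 : x ⬝ᵥ (Pi.single j 1 : Fin n → ℝ) = x j := by simp
        rw [← h2, h1.2, dotProduct_sum]
        refine Finset.sum_eq_zero fun v hv => ?_
        rw [dotProduct_smul, hx v hv, smul_zero]
      have hbd : ∀ i : Fin n, ∃ u : Fin n → ℤ, i ∉ cs τ → (u ∉ τ ∧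
          insert u τ ∈ Φ.mxT (insert i (cs τ)) ∧ 0 < u i ∧
          ∀ τ' ∈ Φ.mxT (insert i (cs τ)), τ ⊆ τ' → τ' = insert u τ) := by
        intro i
        by_cases hi : i ∈ cs τ
        · exact ⟨0, fun h => absurd hi h⟩
        · obtain ⟨u, h1, h2, h3, h4⟩ := hB n Φ (insert i (cs τ)) i τ (mem_insert_self _ _)
            (by rw [Finset.erase_insert hi]; exact hmx)
          exact ⟨u, fun _ => ⟨h1, h2, h3, h4⟩⟩
      choose U hU using hbd
      have hUsupp : ∀ i ∉ cs τ, ∀ j, j ∉ insert i (cs τ) → U i j = 0 := by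
        intro i hi j hj
        exact ((mem_mxT_h42 Φ).1 (hU i hi).2.1).2.2 (U i) (mem_insert_self _ _) j hj
      have hinj : Set.InjOn U ((cs τ)ᶜ : Finset (Fin n)) := by
        intro i hi j hj hij
        by_contra hne
        have hi' : i ∉ cs τ := by simpa using hi
        have hj' : j ∉ cs τ := by simpa using hj
        have h1 := (hU i hi').2.2.1
        have h2 := hUsupp j hj' i (by simp [hne, hi'])
        rw [hij, h2] at h1
        exact lt_irrefl _ h1
      have hsub : (cs τ)ᶜ.image U ⊆ Φ.vert \ τ := by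
        intro v hv
        rw [mem_image] at hv
        obtain ⟨i, hi, rfl⟩ := hv
        have hi' : i ∉ cs τ := by simpa using hi
        rw [mem_sdiff]
        refine ⟨?_, (hU i hi').1⟩
        exact (Fan.IsFace.subset_vert Φ ((mem_mxT_h42 Φ).1 (hU i hi').2.1).1) (mem_insert_self _ _)
      have hsum : ∑ u ∈ Φ.vert \ τ, (x ⬝ᵥ toR u) * Φ.Esum (insert u τ) w 1 =
          ∑ i ∈ (cs τ)ᶜ, (x ⬝ᵥ toR (U i)) * Φ.Esum (insert (U i) τ) w 1 := by
        rw [← Finset.sum_image (f := fun u => (x ⬝ᵥ toR u) * Φ.Esum (insert u τ) w 1) hinj]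
        symm
        refine Finset.sum_subset hsub fun v hv hv' => ?_
        rw [hzero v hv, mul_zero]
        by_contra hcon
        push Not at hcon
        obtain ⟨hf, hcard⟩ := hcon
        -- there is a unique new index
        have h1 : cs τ ⊆ cs (insert v τ) := cs_mono (Finset.subset_insert v τ)
        have h2 : (cs (insert v τ) \ cs τ).card = 1 := by
          rw [Finset.card_sdiff_of_subset h1]; omega
        obtain ⟨i, hi⟩ := Finset.card_eq_one.1 h2
        have hi' : i ∉ cs τ := by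
          have : i ∈ cs (insert v τ) \ cs τ := by rw [hi]; simp
          exact (mem_sdiff.1 this).2
        have h3 : cs (insert v τ) = insert i (cs τ) := by
          rw [← Finset.sdiff_union_of_subset h1, hi]
          rfl
        have hvt : v ∉ τ := (mem_sdiff.1 hv).2
        have h4 : insert v τ ∈ Φ.mxT (insert i (cs τ)) := by
          rw [← h3]
          exact insert_mem_mxT Φ hf (by rw [hcard, Finset.card_insert_of_notMem hvt])
        have h5 := (hU i hi').2.2.2 _ h4 (Finset.subset_insert v τ)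
        apply hv'
        rw [mem_image]
        refine ⟨i, by simpa using hi', ?_⟩
        have h6 : v ∈ insert (U i) τ := by rw [← h5]; exact mem_insert_self _ _
        rcases mem_insert.1 h6 with h | h
        · exact h.symm
        · exact absurd h hvt
      have hidx : (idx (τ : Set (Fin n → ℤ)) : ℝ) ≠ 0 := by
        exact_mod_cast hp n _
      have hprod : ∏ j ∈ (cs τ)ᶜ, w j ≠ 0 := Finset.prod_ne_zero_iff.2 fun j _ => hw.2 j
      have hval : ∀ i ∈ (cs τ)ᶜ, (x ⬝ᵥ toR (U i)) * Φ.Esum (insert (U i) τ) w 1 =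
          (x i * w i) / ((idx (τ : Set (Fin n → ℤ)) : ℝ) * ∏ j ∈ (cs τ)ᶜ, w j) := by
        intro i hi
        have hi' : i ∉ cs τ := by simpa using hi
        obtain ⟨hut, humx, hupos, -⟩ := hU i hi'
        have hmem : U i ∈ Φ.vert \ τ := hsub (mem_image_of_mem U hi)
        have hface := ((mem_mxT_h42 Φ).1 humx).1
        have hcsi : cs (insert (U i) τ) = insert i (cs τ) := cs_of_mem_mxT Φ humx
        have hcardi : (insert i (cs τ)).card = τ.card + 1 := by
          rw [Finset.card_insert_of_notMem hi', hC]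
        rw [hterm (U i) hmem hface, hcsi, if_pos hcardi]
        have h1 : x ⬝ᵥ toR (U i) = x i * (U i i : ℝ) := by
          rw [dotProduct, Finset.sum_eq_single i]
          · rfl
          · intro j _ hj
            by_cases hjc : j ∈ cs τ
            · rw [hx0 j hjc, zero_mul]
            · rw [toR_apply, hUsupp i hi' j (by simp [hj, hjc])]
              simp
          · simp
        have h2 := hI' n (insert i (cs τ)) i τ (U i) (mem_insert_self _ _)
          (by rw [hcardi]) hut (Fan.IsFace.indep Φ hface)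
          (by rw [Finset.erase_insert hi']; exact fun v hv j hj => notMem_cs.1 hj v hv)
          (hUsupp i hi')
        have h3 : (idx ((insert (U i) τ : Finset (Fin n → ℤ)) : Set (Fin n → ℤ)) : ℝ) =
            (idx (τ : Set (Fin n → ℤ)) : ℝ) * (U i i : ℝ) := by
          rw [abs_of_pos hupos] at h2
          exact_mod_cast h2
        have h4 : (cs τ)ᶜ = insert i (insert i (cs τ))ᶜ := by
          ext j
          simp only [mem_compl, mem_insert, not_or]
          by_cases hj : j = i
          · simp [hj, hi']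
          · simp [hj]
        have h5 : ∏ j ∈ (cs τ)ᶜ, w j = w i * ∏ j ∈ (insert i (cs τ))ᶜ, w j := by
          conv_lhs => rw [h4]
          rw [Finset.prod_insert (by simp)]
        have h6 : (U i i : ℝ) ≠ 0 := by exact_mod_cast hupos.ne'
        have h7 : w i ≠ 0 := hw.2 i
        rw [h1, h3, h5]
        rw [h5] at hprod
        have h8 := right_ne_zero_of_mul hprod
        field_simp
      have hdot : ∑ i ∈ (cs τ)ᶜ, x i * w i = x ⬝ᵥ w := by
        have h1 : ∑ i ∈ cs τ, x i * w i = 0 :=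
          Finset.sum_eq_zero fun j hj => by rw [hx0 j hj, zero_mul]
        rw [dotProduct, ← Finset.sum_add_sum_compl (cs τ), h1, zero_add]
      rw [hsum, Finset.sum_congr rfl hval, ← Finset.sum_div, hdot] at hrec
      have := mul_left_cancel₀ hxw (hrec.trans (mul_one_div _ _).symm)
      exact this
    · -- Case B
      have hcB : τ.card + 1 = (cs τ).card := by omega
      rw [if_neg (by omega)]
      obtain ⟨u, u', hne, hu, hu', hmu, hmu', hall, a, b, c, ha, hb, hrel⟩ :=
        hW n Φ (cs τ) τ hτ hcB rfl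
      have hface := ((mem_mxT_h42 Φ).1 hmu).1
      have hface' := ((mem_mxT_h42 Φ).1 hmu').1
      have hmem : u ∈ Φ.vert \ τ := mem_sdiff.2
        ⟨Fan.IsFace.subset_vert Φ hface (mem_insert_self _ _), hu⟩
      have hmem' : u' ∈ Φ.vert \ τ := mem_sdiff.2
        ⟨Fan.IsFace.subset_vert Φ hface' (mem_insert_self _ _), hu'⟩
      have hsum : ∑ v ∈ Φ.vert \ τ, (x ⬝ᵥ toR v) * Φ.Esum (insert v τ) w 1 =
          (x ⬝ᵥ toR u) * Φ.Esum (insert u τ) w 1 +
          (x ⬝ᵥ toR u') * Φ.Esum (insert u' τ) w 1 := by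
        rw [← Finset.sum_pair (f := fun v => (x ⬝ᵥ toR v) * Φ.Esum (insert v τ) w 1) hne]
        symm
        refine Finset.sum_subset ?_ fun v hv hv' => ?_
        · intro v hv
          rcases mem_insert.1 hv with h | h
          · rw [h]; exact hmem
          · rw [mem_singleton.1 h]; exact hmem'
        rw [hzero v hv, mul_zero]
        by_contra hcon
        push Not at hcon
        obtain ⟨hf, hcard⟩ := hcon
        have hvt : v ∉ τ := (mem_sdiff.1 hv).2
        have h1 : cs τ = cs (insert v τ) :=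
          Finset.eq_of_subset_of_card_le (cs_mono (Finset.subset_insert v τ)) (by omega)
        have h4 : insert v τ ∈ Φ.mxT (cs τ) := by
          rw [h1]
          exact insert_mem_mxT Φ hf (by rw [hcard, Finset.card_insert_of_notMem hvt])
        apply hv'
        rcases hall _ h4 (Finset.subset_insert v τ) with h5 | h5
        · have h6 : v ∈ insert u τ := by rw [← h5]; exact mem_insert_self _ _
          rcases mem_insert.1 h6 with h | h
          · simp [h]
          · exact absurd h hvt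
        · have h6 : v ∈ insert u' τ := by rw [← h5]; exact mem_insert_self _ _
          rcases mem_insert.1 h6 with h | h
          · simp [h]
          · exact absurd h hvt
      have hcsu : cs (insert u τ) = cs τ := cs_of_mem_mxT Φ hmu
      have hcsu' : cs (insert u' τ) = cs τ := cs_of_mem_mxT Φ hmu'
      have hwall := hI n τ u u' hu hu' (Fan.IsFace.indep Φ hface) (Fan.IsFace.indep Φ hface')
        a b c ha hb hrel x hx
      have hid : (idx ((insert u τ : Finset (Fin n → ℤ)) : Set (Fin n → ℤ)) : ℝ) ≠ 0 := by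
        exact_mod_cast hp n _
      have hid' : (idx ((insert u' τ : Finset (Fin n → ℤ)) : Set (Fin n → ℤ)) : ℝ) ≠ 0 := by
        exact_mod_cast hp n _
      have hprod : ∏ j ∈ (cs τ)ᶜ, w j ≠ 0 := Finset.prod_ne_zero_iff.2 fun j _ => hw.2 j
      rw [hsum, hterm u hmem hface, hterm u' hmem' hface', hcsu, hcsu', if_pos hcB.symm,
        if_pos hcB.symm] at hrec
      have h0 : (x ⬝ᵥ w) * Φ.Esum τ w 1 = 0 := by
        rw [hrec]
        generalize (idx ((insert u τ : Finset (Fin n → ℤ)) : Set (Fin n → ℤ)) : ℝ) = A at *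
        generalize (idx ((insert u' τ : Finset (Fin n → ℤ)) : Set (Fin n → ℤ)) : ℝ) = A' at *
        generalize ∏ j ∈ (cs τ)ᶜ, w j = P at *
        field_simp
        linarith
      rcases mul_eq_zero.1 h0 with h | h
      · exact absurd h hxw
      · exact h

/-- B1. -/
theorem kFormula (hS : SpanT) (hW : WallT) (hB : BdryT) (hp : IdxPos) (hI : IdxWall)
    (hI' : IdxBdry) : KFormula := by
  intro n Φ τ hτ w hw
  have hle : τ.card ≤ n := by
    obtain ⟨F, hF, hs⟩ := hτ
    have := Finset.card_le_card hs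
    rwa [Φ.mx_card F hF] at this
  exact kFormula_aux hS hW hB hp hI hI' Φ w hw (n - τ.card) τ hτ (by omega)

end Mono
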